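import Pool.Agent.P.MP_e16cac_co.Main

open scoped Matroid

namespace Pool.Agent.Results.MP_e16cac_co.Counterexample

open Pool.Agent.P.MP_e16cac_co

/-- There are a simple matroid `M` with the Brown-Colbourn property and an element `e` of `M`
such that the contraction of `M` by `e` does not have the Brown-Colbourn property. -/
theorem result : ∃ M : Matroid (Fin 7 ⊕ Fin 7),
    IsSimple M ∧ HasBC M ∧ ∃ e ∈ M.E, ¬ HasBC (M.contract {e}) :=
  exists_counterexample

end Pool.Agent.Results.MP_e16cac_co.Counterexample
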